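import Mathlib
import Pool.Agent.Lib.MP_f8d60a_co_h11.Sys

/-!
The base system `[k] × F → F^r` (Vandermonde vectors), with a cheap covering of the exceptional
labels.
-/

set_option autoImplicit false

namespace Pool.Agent.Lib.MP_f8d60a_co_h47

open Finset Pool.Agent.Lib.MP_f8d60a_co_h11

/-- every finite `F_2`-space with at most `2 ^ (r m)` elements is the `r`-fold sum of a set with at
most `r 2 ^ m` elements -/
theorem cover_space {W : Type*} [AddCommGroup W] [Module (ZMod 2) W] [Finite W] (r m : ℕ)
    (h : Nat.card W ≤ 2 ^ (r * m)) :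
    ∃ Y : Finset W, Y.card ≤ r * 2 ^ m ∧
      ∀ w : W, ∃ t : Fin r → W, (∀ j, t j ∈ Y) ∧ ∑ j, t j = w := by
  classical
  have hfin : Module.Finite (ZMod 2) W := Module.Finite.of_finite
  have hcard : Nat.card W = 2 ^ Module.finrank (ZMod 2) W := by
    rw [Module.natCard_eq_pow_finrank (K := ZMod 2)]
    simp
  have hd : Module.finrank (ZMod 2) W ≤ r * m := by
    rw [hcard] at h
    exact (Nat.pow_le_pow_iff_right (by norm_num)).1 h
  set b := Module.finBasis (ZMod 2) W with hb
  set pos : Fin (Module.finrank (ZMod 2) W) → Fin r × Fin m := fun i =>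
    finProdFinEquiv.symm (Fin.castLE hd i) with hpos
  have hposinj : Function.Injective pos := by
    intro i j hij
    exact Fin.castLE_injective hd (finProdFinEquiv.symm.injective hij)
  set φ : (Fin r × Fin m → ZMod 2) → W := fun x => ∑ i, x (pos i) • b i with hφ
  have hφadd : ∀ (g : Fin r → Fin r × Fin m → ZMod 2), φ (∑ j, g j) = ∑ j, φ (g j) := by
    intro g
    simp only [hφ, Finset.sum_apply, Finset.sum_smul]
    exact Finset.sum_comm
  refine ⟨univ.biUnion fun j : Fin r => univ.image fun y : Fin m → ZMod 2 =>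
    φ (fun x => if x.1 = j then y x.2 else 0), ?_, ?_⟩
  · refine card_biUnion_le.trans ?_
    refine (Finset.sum_le_card_nsmul _ _ (2 ^ m) fun j _ => card_image_le.trans ?_).trans ?_
    · rw [card_univ, Fintype.card_fun, ZMod.card, Fintype.card_fin]
    · rw [card_univ, Fintype.card_fin, smul_eq_mul]
  · intro w
    -- coordinates
    set x : Fin r × Fin m → ZMod 2 := fun z => if h : ∃ i, pos i = z then b.repr w h.choose else 0
      with hx
    have hxw : φ x = w := by
      rw [← b.sum_repr w]
      refine sum_congr rfl fun i _ => ?_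
      have h1 : ∃ i', pos i' = pos i := ⟨i, rfl⟩
      have h2 : h1.choose = i := hposinj h1.choose_spec
      rw [hx]
      simp only [dif_pos h1, h2]
    refine ⟨fun j => φ (fun z => if z.1 = j then x (j, z.2) else 0), ?_, ?_⟩
    · intro j
      rw [mem_biUnion]
      exact ⟨j, mem_univ _, mem_image.2 ⟨fun i => x (j, i), mem_univ _, rfl⟩⟩
    · have hg := hφadd (fun j z => if z.1 = j then x (j, z.2) else 0)
      show ∑ j, φ (fun z => if z.1 = j then x (j, z.2) else 0) = w
      rw [← hg, ← hxw]
      congr 1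
      funext z
      rw [Finset.sum_apply, Finset.sum_eq_single z.1]
      · simp
      · intro j _ hj
        rw [if_neg (Ne.symm hj)]
      · intro h; exact absurd (mem_univ _) h

/-- the same inside a larger group -/
theorem cover_subgroup {E : Type*} [AddCommGroup E] [Module (ZMod 2) E] [Finite E]
    (W : AddSubgroup E) (r m : ℕ) (h : Nat.card W ≤ 2 ^ (r * m)) :
    ∃ Y : Finset E, Y.card ≤ r * 2 ^ m ∧
      ∀ w ∈ W, ∃ t : Fin r → E, (∀ j, t j ∈ Y) ∧ ∑ j, t j = w := by
  classical
  obtain ⟨Y, hY1, hY2⟩ := cover_space (W := AddSubgroup.toZModSubmodule 2 W) r m h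
  refine ⟨Y.image Subtype.val, card_image_le.trans hY1, fun w hw => ?_⟩
  obtain ⟨t, ht1, ht2⟩ := hY2 ⟨w, hw⟩
  refine ⟨fun j => (t j : E), fun j => mem_image_of_mem _ (ht1 j), ?_⟩
  have h3 : ((∑ j, t j : AddSubgroup.toZModSubmodule 2 W) : E) = w := congrArg Subtype.val ht2
  show ∑ j, ((t j : E)) = w
  rw [← h3]
  exact (AddSubmonoidClass.coe_finsetSum _ _).symm

section Vandermonde

variable {F : Type} [Field F] {k : ℕ} (r : ℕ) (x : Fin k → F)

/-- the Vandermonde vectors -/
def vv (e : Fin k) : Fin r → F := fun j => x e ^ (j : ℕ)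

/-- `r` of them are linearly independent -/
theorem vv_tuple (hx : Function.Injective x) (t : Fin r → Fin k) (ht : Function.Injective t) :
    LinearIndependent F (fun i => vv r x (t i)) := by
  have h1 : (Matrix.vandermonde (fun i => x (t i))).det ≠ 0 :=
    Matrix.det_vandermonde_ne_zero_iff.2 (hx.comp ht)
  have h2 : IsUnit (Matrix.vandermonde (fun i => x (t i))) :=
    (Matrix.isUnit_iff_isUnit_det _).2 (isUnit_iff_ne_zero.2 h1)
  exact Matrix.linearIndependent_rows_iff_isUnit.2 h2

theorem vv_li (hx : Function.Injective x) (J : Finset (Fin k)) (hJ : J.card = r) :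
    LinearIndepOn F (vv r x) (J : Set (Fin k)) := by
  set e := (J.equivFinOfCardEq hJ) with he
  have h1 := vv_tuple r x hx (fun i => ((e.symm i : J) : Fin k))
    (fun i j hij => e.symm.injective (Subtype.ext hij))
  have h2 := h1.comp e e.injective
  have h3 : LinearIndependent F (fun s : J => vv r x s) := by
    convert h2 using 1
    funext s
    simp
  exact h3

theorem vv_li_le (hx : Function.Injective x) (hk : r ≤ k) (J : Finset (Fin k)) (hJ : J.card ≤ r) :
    LinearIndepOn F (vv r x) (J : Set (Fin k)) := by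
  obtain ⟨J', h1, -, h2⟩ := exists_subsuperset_card_eq (subset_univ J) hJ
    (by rw [card_univ, Fintype.card_fin]; exact hk)
  exact (vv_li r x hx J' h2).mono (by exact_mod_cast h1)

/-- the span of the vectors of `J` -/
def WW (J : Finset (Fin k)) : Submodule F (Fin r → F) := Submodule.span F (vv r x '' J)

theorem WW_finrank (hx : Function.Injective x) (hk : r ≤ k) (J : Finset (Fin k))
    (hJ : J.card ≤ r) : Module.finrank F (WW r x J) = J.card := by
  have h := vv_li_le r x hx hk J hJ
  have h1 := finrank_span_eq_card (R := F) (b := fun s : J => vv r x s) h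
  rw [Fintype.card_coe] at h1
  have h2 : vv r x '' (J : Set (Fin k)) = Set.range (fun s : J => vv r x s) := by
    ext y
    simp
  rw [WW, h2, h1]

theorem WW_lt (J : Finset (Fin k)) (hJ : J.card < r) : WW r x J ≠ ⊤ := by
  classical
  intro h
  have h1 : Module.finrank F (WW r x J) = r := by
    rw [h, finrank_top]; simp
  have h2 : Module.finrank F (WW r x J) ≤ J.card := by
    have h3 := finrank_span_finset_le_card (R := F) (J.image (vv r x))
    rw [Finset.coe_image] at h3
    exact h3.trans card_image_le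
  omega

theorem mem_WW_of_sum (J : Finset (Fin k)) {X : Type*} (D : Finset X) (f : X → Fin k)
    (a : X → F) (hf : ∀ s ∈ D, f s ∈ J) : ∑ s ∈ D, a s • vv r x (f s) ∈ WW r x J :=
  Submodule.sum_mem _ fun s hs => Submodule.smul_mem _ _
    (Submodule.subset_span ⟨f s, hf s hs, rfl⟩)

/-- the second kind of exceptional subspaces -/
theorem UU_ne_top (hx : Function.Injective x) (hk : r ≤ k) (hr : 1 ≤ r) (e : Fin k)
    (A B : Finset (Fin k)) (hA : A.card = r - 1) (hB : B.card = r - 1) (hAB : A ≠ B) :
    Submodule.span F {vv r x e} ⊔ (WW r x A ⊓ WW r x B) ≠ ⊤ := by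
  classical
  intro htop
  have h1 : Module.finrank F (WW r x A) = r - 1 := by
    rw [WW_finrank r x hx hk A (by omega), hA]
  have h1' : Module.finrank F (WW r x B) = r - 1 := by
    rw [WW_finrank r x hx hk B (by omega), hB]
  -- an element of `B` outside `A`
  have h2 : ∃ f ∈ B, f ∉ A := by
    by_contra hcon
    have h3 : B ⊆ A := fun f hf => by
      by_contra hfA
      exact hcon ⟨f, hf, hfA⟩
    exact hAB (eq_of_subset_of_card_le h3 (by omega)).symm
  obtain ⟨f, hfB, hfA⟩ := h2
  have hlt : WW r x A ⊓ WW r x B < WW r x A := by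
    refine lt_of_le_of_ne inf_le_left fun heq => ?_
    have h4 : WW r x A ≤ WW r x B := inf_eq_left.1 heq
    have h5 : WW r x A = WW r x B := Submodule.eq_of_le_of_finrank_eq h4 (by rw [h1, h1'])
    have h6 : vv r x f ∈ WW r x A := by
      rw [h5]; exact Submodule.subset_span ⟨f, hfB, rfl⟩
    have h7 := vv_li_le r x hx hk (insert f A) (by rw [card_insert_of_notMem hfA]; omega)
    rw [coe_insert] at h7
    exact ((linearIndepOn_insert (by simpa using hfA)).1 h7).2 h6
  have h8 := Submodule.finrank_lt_finrank_of_lt hlt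
  have h9 := Submodule.finrank_add_le_finrank_add_finrank (Submodule.span F {vv r x e})
    (WW r x A ⊓ WW r x B)
  rw [htop, finrank_top] at h9
  have h10 : Module.finrank F (Submodule.span F {vv r x e}) ≤ 1 := by
    have := finrank_span_le_card (R := F) ({vv r x e} : Set (Fin r → F))
    simpa using this
  have h11 : Module.finrank F (Fin r → F) = r := by simp
  omega

/-- the good labels of the base system -/
def baseL : Set (Fin r → F) :=
  {d | (∀ J : Finset (Fin k), J.card < r → d ∉ WW r x J) ∧
    ∀ (e : Fin k) (A B : Finset (Fin k)), A.card = r - 1 → B.card = r - 1 → A ≠ B →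
      d ∉ Submodule.span F {vv r x e} ⊔ (WW r x A ⊓ WW r x B)}

/-- the labels of the base system -/
def baseKap (y : Fin k × F) : Fin r → F := y.2 • vv r x y.1

theorem base_injOn {X : Type*} (D : Finset X) (hD : D.card = r) (f : X → Fin k) (a : X → F)
    (h : ∑ s ∈ D, a s • vv r x (f s) ∈ baseL r x) : Set.InjOn f (D : Set X) := by
  classical
  rw [← card_image_iff]
  by_contra hne
  have h1 : (D.image f).card < r := lt_of_le_of_ne (card_image_le.trans hD.le) (by rwa [hD] at hne)
  exact h.1 _ h1 (mem_WW_of_sum r x _ D f a fun s hs => mem_image_of_mem _ hs)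

theorem base_uniq (hx : Function.Injective x) (D D' : Finset (Fin k × F))
    (hD : Set.InjOn Prod.fst (D : Set (Fin k × F)))
    (hD' : Set.InjOn Prod.fst (D' : Set (Fin k × F))) [DecidableEq F]
    (hJ : (D.image Prod.fst).card = r) (himg : D.image Prod.fst = D'.image Prod.fst)
    (hsum : ∑ y ∈ D, baseKap r x y = ∑ y ∈ D', baseKap r x y) : D = D' := by
  have : Inhabited F := ⟨0⟩
  obtain ⟨a, ha⟩ := exists_section D hD
  obtain ⟨b, hb⟩ := exists_section D' hD'
  rw [← himg] at hb
  set J := D.image Prod.fst with hJdef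
  rw [ha, hb, sum_graph, sum_graph] at hsum
  have h1 := linearIndepOn_finset_iff.1 (vv_li r x hx J hJ) (fun s => a s - b s) (by
    simp only [sub_smul, Finset.sum_sub_distrib]
    exact sub_eq_zero.2 hsum)
  rw [ha, hb]
  refine image_congr fun s hs => ?_
  simp only [Prod.mk.injEq, true_and]
  exact sub_eq_zero.1 (h1 s hs)

theorem base_sys (hx : Function.Injective x) (hk : r ≤ k) :
    Sys r (baseKap r x) (baseL r x) (k.choose r) := by
  classical
  refine ⟨fun d hd => ?_, fun D D' hD hD' hL hs hne => ?_, fun t ht => ?_⟩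
  · have hinj : ∀ D : Finset (Fin k × F), D.card = r → ∑ y ∈ D, baseKap r x y = d →
        Set.InjOn Prod.fst (D : Set (Fin k × F)) := fun D h1 h2 =>
      base_injOn r x D h1 Prod.fst Prod.snd (by
        have h3 : ∑ s ∈ D, s.2 • vv r x s.1 = d := h2
        rw [h3]; exact hd)
    have himg : (fun D : Finset (Fin k × F) => D.image Prod.fst) ''
        {D : Finset (Fin k × F) | D.card = r ∧ ∑ s ∈ D, baseKap r x s = d}
        = ((powersetCard r (univ : Finset (Fin k)) : Finset (Finset (Fin k))) :
          Set (Finset (Fin k))) := by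
      ext J
      simp only [Set.mem_image, Set.mem_ofPred_eq, mem_coe, mem_powersetCard, subset_univ,
        true_and]
      constructor
      · rintro ⟨D, ⟨h1, h2⟩, rfl⟩
        rw [card_image_of_injOn (hinj D h1 h2), h1]
      · intro hJ
        have h1 : WW r x J = ⊤ := by
          refine Submodule.eq_top_of_finrank_eq ?_
          rw [WW_finrank r x hx hk J hJ.le, hJ]
          simp
        have h2 : d ∈ Submodule.span F (vv r x '' J) := by
          have : d ∈ WW r x J := by rw [h1]; trivial
          exact this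
        obtain ⟨a0, ha0⟩ := (Submodule.mem_span_image_finset_iff_exists_fun F).1 h2
        set a : Fin k → F := fun s => if h : s ∈ J then a0 ⟨s, h⟩ else 0 with ha
        refine ⟨J.image fun s => (s, a s), ⟨by rw [card_graph, hJ], ?_⟩, image_fst_graph J a⟩
        rw [sum_graph, ← ha0, ← Finset.sum_coe_sort J]
        refine sum_congr rfl fun s _ => ?_
        simp only [baseKap, ha, dif_pos s.2]
    have hio : Set.InjOn (fun D : Finset (Fin k × F) => D.image Prod.fst)
        {D : Finset (Fin k × F) | D.card = r ∧ ∑ s ∈ D, baseKap r x s = d} := by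
      rintro D ⟨h1, h2⟩ D' ⟨h3, h4⟩ h5
      exact base_uniq r x hx D D' (hinj D h1 h2) (hinj D' h3 h4)
        (by rw [card_image_of_injOn (hinj D h1 h2), h1]) h5 (by rw [h2, h4])
    rw [← Set.InjOn.ncard_image hio, himg, Set.ncard_coe_finset, card_powersetCard, card_univ,
      Fintype.card_fin]
  · have hiD : Set.InjOn Prod.fst (D : Set (Fin k × F)) :=
      base_injOn r x D hD Prod.fst Prod.snd hL
    have hiD' : Set.InjOn Prod.fst (D' : Set (Fin k × F)) :=
      base_injOn r x D' hD' Prod.fst Prod.snd (by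
        have : ∑ s ∈ D', s.2 • vv r x s.1 = ∑ s ∈ D, baseKap r x s := hs
        rw [this]; exact hL)
    rw [disjoint_left]
    intro y hy hy'
    have h1 : ((D.erase y).image Prod.fst).card = r - 1 := by
      rw [card_image_of_injOn (hiD.mono (by exact_mod_cast erase_subset _ _)),
        card_erase_of_mem hy, hD]
    have h1' : ((D'.erase y).image Prod.fst).card = r - 1 := by
      rw [card_image_of_injOn (hiD'.mono (by exact_mod_cast erase_subset _ _)),
        card_erase_of_mem hy', hD']
    have h2 : ∑ s ∈ D.erase y, baseKap r x s = ∑ s ∈ D'.erase y, baseKap r x s := by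
      have h3 := add_sum_erase D (baseKap r x) hy
      have h4 := add_sum_erase D' (baseKap r x) hy'
      rw [← hs, ← h4] at h3
      exact add_left_cancel h3
    by_cases hAB : (D.erase y).image Prod.fst = (D'.erase y).image Prod.fst
    · refine hne (base_uniq r x hx D D' hiD hiD' (by rw [card_image_of_injOn hiD, hD]) ?_ hs.symm)
      rw [← insert_erase hy, ← insert_erase hy', image_insert, image_insert, hAB]
    · refine hL.2 y.1 _ _ h1 h1' hAB ?_
      rw [← add_sum_erase D (baseKap r x) hy]
      refine Submodule.add_mem_sup (Submodule.smul_mem _ _ (Submodule.subset_span rfl)) ⟨?_, ?_⟩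
      · exact mem_WW_of_sum r x _ (D.erase y) Prod.fst Prod.snd
          fun s hs' => mem_image_of_mem _ hs'
      · rw [h2]
        exact mem_WW_of_sum r x _ (D'.erase y) Prod.fst Prod.snd
          fun s hs' => mem_image_of_mem _ hs'
  · have h1 : Set.InjOn (fun j => (t j).1) ((univ : Finset (Fin r)) : Set (Fin r)) :=
      base_injOn r x univ (by simp) (fun j => (t j).1) (fun j => (t j).2) ht
    intro i j hij
    exact h1 (by simp) (by simp) (congrArg Prod.fst hij)

end Vandermonde

/-- **the base system** -/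
theorem base (r k : ℕ) (hr : 1 ≤ r) (hk : r ≤ k) (η : ℝ) (hη : 0 < η) (n0 : ℕ) :
    ∃ (K E : Type) (_ : Finite K) (_ : AddCommGroup E) (_ : Module (ZMod 2) E) (_ : Finite E)
      (kap : K → E) (L : Set E), Sys r kap L (k.choose r) ∧ n0 ≤ Nat.card K ∧
      Nat.card K ^ r = k ^ r * Nat.card E ∧
      ∃ Y : Finset E, (Y.card : ℝ) ≤ η * Nat.card K ∧
        ∀ e ∉ L, ∃ t : Fin r → E, (∀ j, t j ∈ Y) ∧ ∑ j, t j = e := by
  classical
  -- the parameters
  set C : ℕ := Fintype.card (Finset (Fin k) ⊕ (Fin k × Finset (Fin k) × Finset (Fin k))) with hC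
  obtain ⟨c, hc⟩ := exists_nat_ge ((C : ℝ) * r / η)
  set m : ℕ := n0 + k + 1 + c with hm
  have hm2 : m < 2 ^ m := Nat.lt_two_pow_self
  have hm1 : 1 ≤ m := by omega
  have hrm : r * m ≠ 0 := by positivity
  set F := GaloisField 2 (r * m) with hF
  have hFc : Nat.card F = 2 ^ (r * m) := GaloisField.card 2 (r * m) hrm
  have hFfin : Finite F := Nat.finite_of_card_ne_zero (by rw [hFc]; positivity)
  have hFt : Fintype F := Fintype.ofFinite F
  have hkF : Fintype.card (Fin k) ≤ Fintype.card F := by
    rw [Fintype.card_fin, ← Nat.card_eq_fintype_card, hFc]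
    have h1 : 2 ^ m ≤ 2 ^ (r * m) := Nat.pow_le_pow_right (by norm_num) (by nlinarith)
    omega
  obtain ⟨x⟩ := Function.Embedding.nonempty_of_card_le hkF
  -- the exceptional subspaces
  set U : (Finset (Fin k) ⊕ (Fin k × Finset (Fin k) × Finset (Fin k))) →
      Submodule F (Fin r → F) := fun i => Sum.elim
    (fun J => if J.card < r then WW r x J else ⊥)
    (fun z => if z.2.1.card = r - 1 ∧ z.2.2.card = r - 1 ∧ z.2.1 ≠ z.2.2 then
      Submodule.span F {vv r x z.1} ⊔ (WW r x z.2.1 ⊓ WW r x z.2.2) else ⊥) i with hU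
  have hfr : Module.finrank F (Fin r → F) = r := by simp
  have hbot : (⊥ : Submodule F (Fin r → F)) ≠ ⊤ := by
    intro h
    have h1 : Module.finrank F (⊥ : Submodule F (Fin r → F)) = r := by
      rw [h, finrank_top, hfr]
    rw [finrank_bot] at h1
    omega
  have hUtop : ∀ i, U i ≠ ⊤ := by
    rintro (J | ⟨e, A, B⟩)
    · simp only [hU, Sum.elim_inl]
      split_ifs with h
      · exact WW_lt r x J h
      · exact hbot
    · simp only [hU, Sum.elim_inr]
      split_ifs with h
      · exact UU_ne_top r x x.injective hk hr e A B h.1 h.2.1 h.2.2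
      · exact hbot
  have hUmem : ∀ d ∉ baseL r x, ∃ i, d ∈ U i := by
    intro d hd
    by_contra hcon
    refine hd ⟨fun J hJ hdJ => hcon ⟨Sum.inl J, ?_⟩, fun e A B hA hB hAB hdU =>
      hcon ⟨Sum.inr (e, A, B), ?_⟩⟩
    · simp only [hU, Sum.elim_inl, if_pos hJ]
      exact hdJ
    · simp only [hU, Sum.elim_inr]
      rw [if_pos ⟨hA, hB, hAB⟩]
      exact hdU
  have hUcard : ∀ i, Nat.card (U i) ≤ 2 ^ (r * (m * (r - 1))) := by
    intro i
    rw [Module.natCard_eq_pow_finrank (K := F), hFc, ← pow_mul]
    refine Nat.pow_le_pow_right (by norm_num) ?_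
    have h1 : Module.finrank F (U i) ≤ r - 1 := by
      have := Submodule.finrank_lt (hUtop i)
      rw [hfr] at this
      omega
    calc r * m * Module.finrank F (U i) ≤ r * m * (r - 1) := Nat.mul_le_mul_left _ h1
      _ = r * (m * (r - 1)) := by ring
  have hcov : ∀ i, ∃ Y : Finset (Fin r → F), Y.card ≤ r * 2 ^ (m * (r - 1)) ∧
      ∀ w ∈ U i, ∃ t : Fin r → (Fin r → F), (∀ j, t j ∈ Y) ∧ ∑ j, t j = w := fun i =>
    cover_subgroup (U i).toAddSubgroup r (m * (r - 1)) (hUcard i)
  choose Y hY1 hY2 using hcov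
  have hKcard : Nat.card (Fin k × F) = k * 2 ^ (r * m) := by
    rw [Nat.card_prod, hFc]; simp
  have hEcard : Nat.card (Fin r → F) = (2 ^ (r * m)) ^ r := by
    rw [Nat.card_fun, hFc]; simp
  refine ⟨Fin k × F, Fin r → F, inferInstance, inferInstance, inferInstance, inferInstance,
    baseKap r x, baseL r x, base_sys r x x.injective hk, ?_, ?_, univ.biUnion Y, ?_, ?_⟩
  · rw [hKcard]
    have h1 : 2 ^ m ≤ 2 ^ (r * m) := Nat.pow_le_pow_right (by norm_num) (by nlinarith)
    have h2 : 1 ≤ k := hr.trans hk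
    calc n0 ≤ 2 ^ (r * m) := by omega
      _ ≤ k * 2 ^ (r * m) := Nat.le_mul_of_pos_left _ h2
  · rw [hKcard, hEcard, mul_pow]
  · have h1 : (univ.biUnion Y).card ≤ C * (r * 2 ^ (m * (r - 1))) := by
      refine card_biUnion_le.trans ?_
      refine (Finset.sum_le_card_nsmul _ _ _ fun i _ => hY1 i).trans ?_
      rw [card_univ, smul_eq_mul]
    have h2 : ((univ.biUnion Y).card : ℝ) ≤ C * (r * 2 ^ (m * (r - 1))) := by exact_mod_cast h1
    refine h2.trans ?_
    rw [hKcard]
    push_cast
    have h3 : (2 : ℝ) ^ (r * m) = 2 ^ (m * (r - 1)) * 2 ^ m := by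
      rw [← pow_add]
      congr 1
      obtain ⟨r', rfl⟩ : ∃ r', r = r' + 1 := ⟨r - 1, by omega⟩
      simp only [Nat.add_sub_cancel]
      ring
    have h4 : (C : ℝ) * r ≤ η * 2 ^ m := by
      have h5 : (C : ℝ) * r / η ≤ 2 ^ m := by
        refine hc.trans ?_
        have h6 : c ≤ 2 ^ m := by omega
        exact_mod_cast h6
      rw [div_le_iff₀ hη] at h5
      linarith
    have h7 : (1 : ℝ) ≤ k := by exact_mod_cast hr.trans hk
    have h8 : (0 : ℝ) < 2 ^ (m * (r - 1)) := by positivity
    rw [h3]
    calc (C : ℝ) * (r * 2 ^ (m * (r - 1))) = (C * r) * 2 ^ (m * (r - 1)) := by ring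
      _ ≤ (η * 2 ^ m) * 2 ^ (m * (r - 1)) := mul_le_mul_of_nonneg_right h4 h8.le
      _ ≤ (η * 2 ^ m) * 2 ^ (m * (r - 1)) * k :=
        le_mul_of_one_le_right (by positivity) h7
      _ = η * (k * (2 ^ (m * (r - 1)) * 2 ^ m)) := by ring
  · intro e he
    obtain ⟨i, hi⟩ := hUmem e he
    obtain ⟨t, ht1, ht2⟩ := hY2 i e hi
    exact ⟨t, fun j => mem_biUnion.2 ⟨i, mem_univ _, ht1 j⟩, ht2⟩

end Pool.Agent.Lib.MP_f8d60a_co_h47
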